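import Mathlib
import Pool.Agent.H37.DF.Del
import Pool.Graph.R_pool_sql_team_seeded_c8625f6e.K4H1.DT.Gauss

/-!
# Deligne's conjecture for Artin twists: which families of base fields suffice

The definitions are in `Pool.Agent.K4H1.DT.Defs` (`Mot`, `Frame`, `Deligne`), in
`Pool.Agent.H37.Stk.Def` (`Adm`, `ProElem`, `Meets`, `Suffices`) and in `Pool.Agent.H37.DF`
(`Covers`, `CoversUpToReal`, `RootClosed`, `DeligneMod`, `DeligneRatioMod`, `AllTwists`,
`AbelianTwists`, `AbelianQuotients`). No case of the conjecture is assumed.
-/

set_option autoImplicit false

namespace Pool.Agent.Results.MP_cd171c_nt.BaseFieldFamilies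

open Matrix Pool.Agent.K4H1.RB Pool.Agent.K4H1.DT Pool.Agent.H37.Stk Pool.Agent.H37.DF

/-- **Deligne's conjecture for Artin twists: which families of base fields suffice.** Let `𝔉` be any
class of number fields and `P` a set of prime numbers (the case of all prime numbers is the most
important one). `Covers P 𝔉` says that for `p ∈ P` and for `p = 1` every algebraic extension `Ω` of
`ℚ`, all of whose finite Galois extensions have a `p`-elementary Galois group (a cyclic one, for
`p = 1`), contains a field in `𝔉`. `CoversUpToReal P 𝔉` says this for all `Ω` that are not isomorphic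
to the field of the real algebraic numbers.

(1) The choices of the setting (Frobenius elements, complex conjugation, Gauss sums) exist, and
Deligne's conjecture modulo the trivial group is Deligne's conjecture.

(2) `Covers P 𝔉` holds if and only if every Artin invariant (additive, compatible with inflation and
induction) with values in a group without elements of order `ℓ` for the prime numbers `ℓ` outside `P`,
which is trivial over the fields in `𝔉`, is trivial. Then a finite part of `𝔉` has the same property.

(3) Example: let `K j` be finitely many algebraic extensions of `ℚ`. The class of the number fields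
that do not embed in any of them has the property if and only if no `K j` has only `p`-elementary
Galois groups for some `p ∈ P` or `p = 1`. So we may take the number fields with a nonsolvable Galois
closure and without primes of degree one above finitely many given prime numbers.

(4) Let `M` be a motive of odd weight with coefficients in `E`, consider a (critical) integer to the
right of the centre, and let `U` be a group of complex numbers, closed under taking `ℓ`-th roots for
the prime numbers `ℓ` outside `P`; for the set of all prime numbers every `U`, in particular the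
trivial one, is allowed.

* If `Covers P 𝔉`: Deligne's conjecture modulo `U` holds for the twists of `M` by all Artin
  representations if and only if it holds for the twists by the representations induced from
  characters of the number fields that contain a field in `𝔉`.
* If `CoversUpToReal P 𝔉`: it holds for all Artin representations if and only if it holds for `M`,
  for one twist of `M` by an odd Dirichlet character, and for the quotients of the critical values of
  the twists of `M` by any two characters with the same signs at the real places of a number field
  that contains a field in `𝔉`.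
* If `CoversUpToReal P 𝔉`: there are two periods that govern the critical values of all Artin twists
  of `M` modulo `U` if and only if the conjecture modulo `U` holds for these quotients (in which the
  periods of `M` do not occur). -/
theorem result :
    -- (1) the setting
    (∀ e : AlgebraicClosure ℚ →+* ℂ, ∃ F : Frame, F.e = e) ∧
    (∀ (E : Type) [Field E] [NumberField E] (M : Mot E) (F : Frame) (n : Type) [Fintype n]
      [DecidableEq n] (ρ : GQ →* Matrix n n ℂ), DeligneMod ⊥ M F ρ ↔ Deligne M F ρ) ∧
    -- (2) exactness
    (∀ (P : Set ℕ) (𝔉 : Set NF),
      (Suffices P 𝔉 ↔ Covers P 𝔉) ∧ (Covers P 𝔉 → ∃ T ⊆ 𝔉, T.Finite ∧ Covers P T)) ∧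
    -- (3) the number fields without embeddings in given fields
    (∀ (P : Set ℕ) (J : Type) [Finite J] (K : J → Type) [∀ j, Field (K j)] [∀ j, CharZero (K j)]
      [∀ j, Algebra.IsAlgebraic ℚ (K j)],
      Covers P {F : NF | ∀ j, IsEmpty (F.K →+* K j)} ↔ ∀ p, Adm P p → ∀ j, ¬ ProElem p (K j)) ∧
    -- (4) Deligne's conjecture
    ∀ (P : Set ℕ) (𝔉 : Set NF) (U : Subgroup ℂˣ), RootClosed P U →
      ∀ (E : Type) [Field E] [NumberField E] (M : Mot E) (F : Frame),
        (Covers P 𝔉 → (AllTwists U M F ↔ AbelianTwists U 𝔉 M F)) ∧
        (CoversUpToReal P 𝔉 →
          (∀ ε : GQ →* ℂˣ, IsOpen (ε.ker : Set GQ) → ε F.c = -1 →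
            (AllTwists U M F ↔ DeligneMod U M F (charRep 1) ∧ DeligneMod U M F (charRep ε) ∧
              AbelianQuotients U 𝔉 M F)) ∧
          ((∃ (cp cm : (E →+* ℂ) → ℂ) (hp : ∀ ι, cp ι ≠ 0) (hm : ∀ ι, cm ι ≠ 0),
            AllTwists U (M.withPeriods cp cm hp hm) F) ↔ AbelianQuotients U 𝔉 M F)) :=
  ⟨exists_frame, fun _ _ _ M F _ _ _ ρ => deligneMod_bot M F ρ,
    fun P 𝔉 => ⟨(criterion P 𝔉).out 0 2 rfl rfl, fun h => by
      obtain ⟨T, hT, hf, h1⟩ := ((criterion P 𝔉).out 2 4 rfl rfl).mp h
      exact ⟨T, hT, hf, ((criterion P T).out 0 2 rfl rfl).mp h1⟩⟩,
    fun P _ _ K _ _ _ => (((criterion P _).out 2 0 rfl rfl).trans (criterion_avoid P K)),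
    fun _ _ _ hU _ _ _ M F => ⟨fun hc => deligne_abs hc hU M F, fun hc =>
      ⟨fun _ hε hεc => deligne_rel hc hU M F hε hεc, periods_rel hc hU M F⟩⟩⟩

end Pool.Agent.Results.MP_cd171c_nt.BaseFieldFamilies
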