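import Mathlib
import Pool.Agent.H83.DB.Free
import Pool.Graph.R_pool_sql_team_seeded_c8625f6e.K4H1.DT.Gauss

/-!
# Deligne's conjecture for Artin twists: Dirichlet characters and basic representations suffice

The definitions are in `Pool.Agent.K4H1.DT.Defs` (`Mot`, `Frame`, `DeligneRatio`), in
`Pool.Agent.H11.PP.Defs` (`Basic`), and in `Pool.Agent.H83.DB` (`DeligneMod`, `IsBasic`, `indR`,
`AllTwists`, `DirichletTwists`, `BasicTwists`, `Quotients`). No case of the conjecture is assumed.
-/

set_option autoImplicit false

namespace Pool.Agent.Results.MP_cd171c_nt.BasicTwists

open Matrix Pool.Agent.K4H1.RB Pool.Agent.K4H1.DT Pool.Agent.H83.DB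

/-- **Deligne's conjecture for Artin twists: Dirichlet characters and basic representations
suffice.** All number fields, and all number fields with solvable Galois closure, form classes `O`
of number fields. The choices of the setting (Frobenius elements, complex conjugation, Gauss sums)
exist for every embedding of the algebraic closure of `ℚ` into `ℂ`. The basic representations have
dimension larger than one, and for the solvable fields their dimension is a power of a prime number.

Let `M` be a motive of odd weight with coefficients in `E`, and consider a (critical) integer to the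
right of the centre.

* For every group `U` of complex numbers, Deligne's conjecture modulo `U` (for trivial `U`: Deligne's
  conjecture) holds for the twists of `M` by all Artin representations of the class if and only if it
  holds for the twists by the Dirichlet characters of the class, and for the twists of `M` over the
  fields of the class by basic representations. So abelian twists over fields other than `ℚ` are
  not needed.
* Let `ε` be an odd Dirichlet character. There are two periods that govern the critical values of
  all the twists if and only if `L(M ⊗ ρ) / (L(M) ^ a L(M ⊗ ε) ^ b)` is as predicted by Deligne's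
  conjecture for the Dirichlet characters `ρ` and for the representations `ρ` induced from basic
  representations, with the multiplicities `a` and `b` of the eigenvalues of complex conjugation. -/
theorem result :
    FieldClass allFields ∧ FieldClass solvableFields ∧
    (∀ e : AlgebraicClosure ℚ →+* ℂ, ∃ F : Frame, F.e = e) ∧
    (∀ (H : Subgroup GQ) (n : ℕ) (ρ : H →* Matrix (Fin n) (Fin n) ℂ), IsBasic ρ →
      InClassRep solvableFields ρ → ∃ p k : ℕ, p.Prime ∧ 0 < k ∧ n = p ^ k) ∧
    ∀ O : Set (Subgroup GQ), FieldClass O →
      ∀ (E : Type) [Field E] [NumberField E] (M : Mot E) (F : Frame),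
        (∀ U : Subgroup ℂˣ,
          AllTwists U O M F ↔ DirichletTwists U O M F ∧ BasicTwists U O M F) ∧
        ∀ ε : GQ →* ℂˣ, (∃ V ∈ O, ∀ v ∈ V, ε v = 1) → ε F.c = -1 →
          ((∃ (cp cm : (E →+* ℂ) → ℂ) (hp : ∀ ι, cp ι ≠ 0) (hm : ∀ ι, cm ι ≠ 0),
            AllTwists ⊥ O (M.withPeriods cp cm hp hm) F) ↔ Quotients ε O M F) :=
  ⟨all_class, solv_class, exists_frame, fun _ _ _ h h' => degree_solvable h h',
    fun _ hO _ _ _ M F => ⟨fun U => allTwists_iff hO U M F,
      fun _ hε hc => periods_iff hO M F hε hc⟩⟩

end Pool.Agent.Results.MP_cd171c_nt.BasicTwists
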