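import Pool.Agent.H43.PC.CohOdd

/-!
# Deligne's period conjecture in odd weight and planar cubic hypersurfaces

A *gate* is one of the polynomials `x_a`, `x_a - 1`, `x_a - x_b`, `x_a + x_b - x_c`, `x_a x_b - x_c`.
A *lattice system* consists of `n` variables and `r` gates `p_g` with different places in the square
lattice `ℤ²` such that each gate is a neighbour of each of its (different) variables and each variable
is in at most three gates. Its *lattice cubic* is the smooth affine cubic hypersurface
`Z : ∑_g t_g p_g(x) = 1` in the affine space with the `d + 1 = n + r` coordinates `x`, `t`.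

**Theorem.** (1) Every integral affine scheme of dimension `m` of finite type over `ℚ` has a non-empty
smooth open subscheme which is isomorphic to the scheme of the solutions of a lattice system with `r`
gates and `n = r + m` variables.

(2) Deligne's period conjecture is true for all motives of odd weight over `ℚ` with coefficients in
`F` if and only if it is true for all Tate twists of all direct summands of the piece
`gr^W_{d-1} H^d_c(Z)` for the lattice cubics `Z` with even `d` (this is the piece of the weight just
below the pure part of the middle cohomology). It is sufficient to consider the lattice systems whose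
scheme of solutions is a smooth integral complete intersection, i.e. of dimension `m = n - r`.

(3) For each `N` it is true for all Tate twists of all direct summands of the cohomology of the smooth
projective schemes of dimension at most `N` if and only if it is true for all Tate twists of all
direct summands of `gr^W_{d-1} H^d_c(Z)` for the lattice cubics with even `d` and `n ≤ r + N`. Again
smooth integral complete intersections are sufficient.

The proof. By Noether normalisation and a primitive element an integral scheme of dimension `m` is
birational to a hypersurface in `𝔸^(m+1)`, so that an open subscheme is given by two equations with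
integer coefficients in `m + 2` variables; these are computed by a circuit in the square lattice in
which a new variable comes with each new gate. The hypersurface `Z` is an affine bundle over the
complement of the scheme of the solutions `X` in `𝔸^n`, and so `gr^W_{d-1} H^d_c(Z)` is a Tate twist
of `gr^W_m H^m_c(X)` for `m = n - r`. The pure parts of the cohomology in the degree `m` satisfy the
axioms for a noetherian induction, and the Lefschetz theorems reduce the other degrees to the
middle one.
-/

set_option autoImplicit false

open CategoryTheory CategoryTheory.Limits AlgebraicGeometry Pool.Agent.Y116.UV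
  Pool.Agent.Y101.Th Pool.Agent.Y691.TU Pool.Agent.H71.AR Pool.Agent.H43.PC

namespace Pool.Agent.Results.MP_cd171c_nt.LatticeCubics

universe v u

/-- **Deligne's period conjecture in odd weight and lattice cubics.** Let `F` be a number field, `C`
the semisimple category of motives over `ℚ` with coefficients in `F`, generated by the cohomology of
the smooth projective schemes, `D` the graded pieces `gr^W_w H^j_c(X)` as objects of `C`, and `T` the
data of Deligne's conjecture in odd weight, with their known properties.

(1) Every integral affine scheme of dimension `m` of finite type over `ℚ` has a non-empty smooth open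
subscheme isomorphic to the scheme of the solutions of a lattice system of `r` gates in `r + m`
variables. The cubic hypersurface of every system of gates is smooth over `ℚ`.

(2) The following are equivalent: for all motives `M` in `C` of odd weight for which `0` is critical,
`α^+` is an isomorphism and `L(M, 0)` lies in `F c^+(M)`; this is true for all Tate twists of all
direct summands of `gr^W_{d-1} H^d_c(Z)` for the lattice cubics `Z` in `d + 1 = n + r` variables with
`d` even; the same for the lattice systems whose scheme of solutions is integral, smooth and of odd
dimension `m = n - r`.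

(3) The same, dimension by dimension: smooth projective schemes of dimension at most `N`; lattice
cubics with `n ≤ r + N`; smooth integral complete intersections with `m ≤ N`. -/
theorem result {F : Type} [Field F] [NumberField F] {C : Type u} [Category.{v} C] [Abelian C]
    {D : Graded ℚ C} [D.L.IsEquivalence] {T : Periods F C} (hC : Semisimple C) (hD : IsCohB D)
    (hG : ∀ M : C, Gen D M) (hT : IsPeriods T D) (hW : IsPure T D) :
    ((∀ (B : Type) [CommRing B] [IsDomain B] [Algebra ℚ B] [Algebra.FiniteType ℚ B] (m : ℕ),
        ringKrullDim B = m → ∃ w : B, w ≠ 0 ∧ Algebra.Smooth ℚ (Localization.Away w) ∧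
          ∃ (n r : ℕ) (γ : Fin r → Gate ℚ (Fin n)), OnLattice {0, 1} γ ∧ n = r + m ∧
            Nonempty (Net γ ≃ₐ[ℚ] Localization.Away w)) ∧
      ∀ (n r : ℕ) (γ : Fin r → Gate ℚ (Fin n)), Algebra.Smooth ℚ (HypG γ)) ∧
    List.TFAE [
      ∀ M : C, DeligneOdd T M,
      ∀ (n r : ℕ) (γ : Fin r → Gate ℚ (Fin n)), OnLattice {0, 1} γ → Odd (n + r) →
        Every D.L (DeligneOdd T) (D.H (aff ℚ (HypG γ)) (n + r - 2) (n + r - 1)),
      ∀ (n r : ℕ) (γ : Fin r → Gate ℚ (Fin n)), OnLattice {0, 1} γ → IsDomain (Net γ) →
        Algebra.Smooth ℚ (Net γ) → ∀ m : ℕ, Odd m → n = r + m → ringKrullDim (Net γ) = m →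
        Every D.L (DeligneOdd T) (D.H (aff ℚ (HypG γ)) (n + r - 2) (n + r - 1))] ∧
    ∀ N : ℕ, List.TFAE [
      ∀ X : Sch ℚ, SmProj X → topologicalKrullDim X.left ≤ N → ∀ i,
        Every D.L (DeligneOdd T) (D.H X i i),
      ∀ (n r : ℕ) (γ : Fin r → Gate ℚ (Fin n)), OnLattice {0, 1} γ → Odd (n + r) → n ≤ r + N →
        Every D.L (DeligneOdd T) (D.H (aff ℚ (HypG γ)) (n + r - 2) (n + r - 1)),
      ∀ (n r : ℕ) (γ : Fin r → Gate ℚ (Fin n)), OnLattice {0, 1} γ → IsDomain (Net γ) →
        Algebra.Smooth ℚ (Net γ) → ∀ m : ℕ, Odd m → m ≤ N → n = r + m →
        ringKrullDim (Net γ) = m →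
        Every D.L (DeligneOdd T) (D.H (aff ℚ (HypG γ)) (n + r - 2) (n + r - 1))] := by
  refine ⟨⟨?_, fun n r γ => hypG_smooth γ⟩, lat_odd_all isFrac_rat hC hD hG hT hW,
    lat_odd_dim isFrac_rat hC hD hT hW⟩
  intro B _ _ _ _ m hm
  obtain ⟨w, hw, hs, n, r, γ, hγ, -, hn, he⟩ := exists_lat isFrac_rat B m hm
  exact ⟨w, hw, hs, n, r, γ, hγ, hn, he⟩

end Pool.Agent.Results.MP_cd171c_nt.LatticeCubics
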