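import Pool.Agent.H71.AR.Odd

/-!
# Deligne's period conjecture in odd weight and the middle cohomology of moduli spaces of line
arrangements

A moduli space of line arrangements parametrises the arrangements which consist of the four lines
`X = 0`, `Y = 0`, `Z = 0`, `X + Y + Z = 0` and of `a` lines `X + x_i Y + y_i Z = 0` and `b` lines
`Y + z_j Z = 0` in the projective plane such that exactly the triples of lines in a given set `S` are
not concurrent. `ArrAlg k N` says that `N` is the algebra of functions on such a moduli space over `k`
(it represents the functor of these arrangements) and that the lines are pairwise distinct.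

The proof uses a form of the universality theorem of Mnëv, Sturmfels and Lafforgue which preserves
the dimension: every integral affine scheme of finite type over `ℚ` has a non-empty smooth open
subscheme which is isomorphic to a moduli space of line arrangements
(`Pool.Agent.H71.AR.exists_nice`). The pure part `gr^W_i H^i_c` satisfies the axioms for a noetherian
induction, because `H^j_c` has weights at most `j`, and the Lefschetz theorems reduce the other
degrees to the middle one.
-/

set_option autoImplicit false

open CategoryTheory CategoryTheory.Limits AlgebraicGeometry Pool.Agent.Y116.UV
  Pool.Agent.Y101.Th Pool.Agent.Y691.TU Pool.Agent.H71.AR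

namespace Pool.Agent.Results.MP_cd171c_nt.LineArrangements

universe v u

/-- **Deligne's period conjecture in odd weight and moduli spaces of line arrangements.** Let `F` be
a number field, `C` the semisimple category of motives over `ℚ` with coefficients in `F`, generated by
the cohomology of the smooth projective schemes, `D` the graded pieces `gr^W_w H^j_c(X)` as objects of
`C`, and `T` the data of Deligne's conjecture in odd weight, with their known properties. The
following are equivalent:

* for all motives `M` in `C` of odd weight for which `0` is critical, `α^+` is an isomorphism and
  `L(M, 0)` lies in `F c^+(M)`;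
* this is true for all Tate twists of all direct summands of the pure part `gr^W_m H^m_c` of the middle
  cohomology of the smooth integral moduli spaces of line arrangements of odd dimension `m`.

For each `n` it is true for all Tate twists of all direct summands of the cohomology of the smooth
projective schemes of dimension at most `n` if and only if it is true for those of the pure part of
the middle cohomology of the smooth integral moduli spaces of line arrangements of odd dimension
`m ≤ n`. -/
theorem result {F : Type} [Field F] [NumberField F] {C : Type u} [Category.{v} C] [Abelian C]
    {D : Graded ℚ C} [D.L.IsEquivalence] {T : Periods F C} (hC : Semisimple C) (hD : IsCoh D)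
    (hG : ∀ M : C, Gen D M) (hT : IsPeriods T D) (hW : IsPure T D) :
    ((∀ M : C, DeligneOdd T M) ↔
      ∀ (N : Type) [CommRing N] [IsDomain N] [Algebra ℚ N] [Algebra.Smooth ℚ N], ArrAlg ℚ N →
        ∀ m : ℕ, Odd m → ringKrullDim N = m → Every D.L (DeligneOdd T) (D.H (aff ℚ N) m m)) ∧
    ∀ n : ℕ,
      (∀ X : Sch ℚ, SmProj X → topologicalKrullDim X.left ≤ n → ∀ i,
          Every D.L (DeligneOdd T) (D.H X i i)) ↔
        ∀ (N : Type) [CommRing N] [IsDomain N] [Algebra ℚ N] [Algebra.Smooth ℚ N], ArrAlg ℚ N →
          ∀ m : ℕ, Odd m → m ≤ n → ringKrullDim N = m →
            Every D.L (DeligneOdd T) (D.H (aff ℚ N) m m) :=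
  ⟨odd_all isFrac_rat hC hD hG hT hW, fun n => odd_dim isFrac_rat hC hD hT hW n⟩

end Pool.Agent.Results.MP_cd171c_nt.LineArrangements
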